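import Pool.Agent.Hhelper83.SecondCase
import Pool.Agent.Hhelper83.NonResidue

/-!
For every finite set `S` of primes, for all primes `ℓ` in a suitable residue class (so for a
positive proportion of primes `ℓ`), every `S`-solution whose first two terms are `ℓ`-th powers,
with `r` even and `4 ∤ c z^r`, has `c = ±1` or `±2`.
-/

namespace Pool.Agent.Results.MP_be1fae_nt.EvenExponentClass

open Pool.Agent.Hhelper83.Terjanian Pool.Agent.Hhelper83.SSol Pool.Agent.Hhelper83.NonResidue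

/-- Let `S` be a finite set of primes.  There is a residue class `ρ mod M`, coprime to `M`, such
that for every prime `ℓ ≡ ρ (mod M)`, `ℓ ≥ 5`, exceeding all elements of `S`, every `S`-solution
`(a,b,c,x,y,z,p,q,r)` with `a x^p = u^ℓ`, `b y^q = v^ℓ` and `r` even satisfies one of:
either `c ∈ {1,-1,2,-2}`, `z` is odd and `ℓ ∤ z`; or `4 ∣ c z^r` and `ℓ ∣ z`. -/
theorem result (S : Finset ℕ) (hS : ∀ s ∈ S, s.Prime) :
    ∃ M ρ : ℕ, 0 < M ∧ Nat.Coprime ρ M ∧
      ∀ l : ℕ, l.Prime → l ≡ ρ [MOD M] → 5 ≤ l → (∀ s ∈ S, s < l) →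
      ∀ (a b c x y z : ℤ) (p q r : ℕ), IsSSolution S a b c x y z p q r →
      ∀ u v : ℤ, a * x ^ p = u ^ l → b * y ^ q = v ^ l → Even r →
      ((c = 1 ∨ c = -1 ∨ c = 2 ∨ c = -2) ∧ Odd z ∧ ¬ (l : ℤ) ∣ z) ∨
      ((4 : ℤ) ∣ c * z ^ r ∧ (l : ℤ) ∣ z) := by
  classical
  set T : Finset ℕ := S.filter (fun s => s ≠ 2) with hT
  have hTodd : ∀ s ∈ T, s.Prime ∧ Odd s := by
    intro s hs
    have h1 := Finset.mem_filter.mp hs
    exact ⟨hS s h1.1, (hS s h1.1).odd_of_ne_two h1.2⟩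
  obtain ⟨ρ, h1, h2, h3⟩ := exists_class 2 two_ne_zero T
    (fun s hs => (hTodd s hs).1)
    (fun s hs hd => by
      have h4 := hTodd s hs
      have := (Nat.prime_dvd_prime_iff_eq h4.1 Nat.prime_two).mp hd
      exact (Finset.mem_filter.mp hs).2 this)
    (fun s hs => by
      obtain ⟨k, hk⟩ := (hTodd s hs).2
      have : s - 1 = 2 * k := by omega
      rw [this]; simp)
  refine ⟨2 * ∏ s ∈ T, s, ρ, ?_, h1, ?_⟩
  · apply Nat.mul_pos (by omega)
    apply Finset.prod_pos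
    intro s hs
    exact (hTodd s hs).1.pos
  intro l hl hlρ hl5 hSl a b c x y z p q r h u v hu hv hr
  have hl2 : l ≠ 2 := by omega
  have hnl : 2 ∣ l - 1 := by
    have := hl.odd_of_ne_two hl2
    rw [Nat.odd_iff] at this
    omega
  obtain ⟨k, hk⟩ := hr
  have hk0 : k ≠ 0 := by
    rintro rfl; have := h.pos_r; omega
  have hzr : (z ^ k) ^ 2 = z ^ r := by rw [hk, ← pow_mul]; ring_nf
  have heq : u ^ l + v ^ l = c * (z ^ k) ^ 2 := by
    rw [← hu, ← hv, h.eq, hzr]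
  have hlp : Prime (l : ℤ) := Nat.prime_iff_prime_int.mp hl
  have hcop : IsCoprime u v := h.isCoprime hl.ne_zero hl.ne_zero hu hv
  have hu0 : u ≠ 0 := by
    rintro rfl
    rw [zero_pow hl.ne_zero] at hu
    exact (mul_ne_zero h.a_ne (pow_ne_zero _ h.x_ne)) hu
  have hv0 : v ≠ 0 := by
    rintro rfl
    rw [zero_pow hl.ne_zero] at hv
    exact (mul_ne_zero h.b_ne (pow_ne_zero _ h.y_ne)) hv
  have hcS : ∀ s : ℕ, s.Prime → (s : ℤ) ∣ c → ¬ s ≡ 0 [MOD l] ∧ ¬ s ≡ 1 [MOD l] := by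
    intro s hs hd
    have hsS := h.unit_c hs hd
    have hsl := hSl s hsS
    have h2s := hs.two_le
    constructor
    · intro h0
      have := (Nat.modEq_zero_iff_dvd).mp h0
      exact absurd (Nat.le_of_dvd (by omega) this) (by omega)
    · intro h1
      have := (Nat.modEq_iff_dvd' (by omega : 1 ≤ s)).mp h1.symm
      exact absurd (Nat.le_of_dvd (by omega) this) (by omega)
  obtain ⟨hdi, -⟩ := dichotomy hcop hl hl5 hcS h.c_ne (pow_ne_zero k h.z_ne) hu0 hv0 heq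
  rw [hzr] at hdi
  have h3' : (l : ℤ) ∣ z ^ k ↔ (l : ℤ) ∣ z :=
    ⟨fun hd => hlp.dvd_of_dvd_pow hd, fun hd => dvd_pow hd hk0⟩
  rw [h3'] at hdi
  by_cases hz : (l : ℤ) ∣ z
  · right
    exact ⟨hdi.mp hz, hz⟩
  left
  obtain ⟨hne, hcd, t, ht⟩ := core hcop hl hl2 hcS
    (fun hd => hz (hlp.dvd_of_dvd_pow hd)) h.c_ne (pow_ne_zero _ h.z_ne) heq
  -- no odd prime divides c
  have hodd : ∀ s : ℕ, s.Prime → (s : ℤ) ∣ c → s = 2 := by
    intro s hs hsc
    by_contra hs2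
    obtain ⟨e, he⟩ := residue hcop hnl hs (hsc.trans hcd) ht
    have hsT : s ∈ T := Finset.mem_filter.mpr ⟨h.unit_c hs hsc, hs2⟩
    apply h3 s hsT e
    rw [he]
    have : l ≡ ρ [MOD s] := hlρ.of_dvd ((Finset.dvd_prod_of_mem _ hsT).mul_left 2)
    exact (ZMod.natCast_eq_natCast_iff _ _ _).mpr this
  -- 4 does not divide c z^r
  have h4 : ¬ (4 : ℤ) ∣ c * z ^ r := fun h4 => hz (hdi.mpr h4)
  have hzodd : Odd z := by
    rw [← Int.not_even_iff_odd]
    intro hev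
    apply h4
    obtain ⟨m, hm⟩ := hev
    obtain ⟨j, hj⟩ := Nat.exists_eq_succ_of_ne_zero hk0
    have : z ^ r = 4 * (m ^ 2 * (z ^ j * z ^ j)) := by
      rw [hk, hj, pow_add, pow_succ, hm]; ring
    rw [this]
    exact ⟨c * (m ^ 2 * (z ^ j * z ^ j)), by ring⟩
  refine ⟨?_, hzodd, hz⟩
  have h4c : ¬ (4 : ℤ) ∣ c := fun hd => h4 (hd.mul_right _)
  have hc0 : c.natAbs ≠ 0 := Int.natAbs_ne_zero.mpr h.c_ne
  have hpow := Nat.eq_prime_pow_of_unique_prime_dvd hc0 (fun {d} hd hdc =>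
    hodd d hd (Int.natCast_dvd.mpr hdc))
  have hlt : c.natAbs.primeFactorsList.length < 2 := by
    by_contra hge
    push Not at hge
    apply h4c
    have : 2 ^ 2 ∣ c.natAbs := by
      rw [hpow]; exact pow_dvd_pow 2 hge
    exact Int.natCast_dvd.mpr (by simpa using this)
  have h5 : c.natAbs.primeFactorsList.length = 0 ∨ c.natAbs.primeFactorsList.length = 1 := by omega
  rcases h5 with h5 | h5 <;> rw [h5] at hpow <;> omega

end Pool.Agent.Results.MP_be1fae_nt.EvenExponentClass
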