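import Mathlib

/-!
The fixed-coefficient version of the generalised Fermat equation for a positive proportion of all
coefficient triples: `a x^p + b y^q = c z^r` has no solution in nonzero integers with
`gcd(x,y,z) = 1` and `1/p + 1/q + 1/r < 1` as soon as two of the three coefficients are low at
some prime (for instance `6 x^p + 4 y^q = 9 z^r`).
-/

set_option autoImplicit false

namespace Pool.Agent.Results.MP_be1fae_nt.FixedCoefficients

/-- The coefficient `u` is low at `l` with respect to the other coefficients `s, t`: the valuations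
of `s, t` at `l` exceed that of `u` by `1` and `2`, in one of the two orders. -/
def Low (l : ℕ) (u s t : ℤ) : Prop :=
  (padicValInt l s = padicValInt l u + 1 ∧ padicValInt l t = padicValInt l u + 2) ∨
  (padicValInt l s = padicValInt l u + 2 ∧ padicValInt l t = padicValInt l u + 1)

/-- The equation `a x^p + b y^q = c z^r` has no solution with `x, y, z` nonzero,
`gcd(x,y,z) = 1` and `1/p + 1/q + 1/r < 1`. -/
def NoSolution (a b c : ℤ) : Prop :=
  ¬ ∃ (x y z : ℤ) (p q r : ℕ), x ≠ 0 ∧ y ≠ 0 ∧ z ≠ 0 ∧ Int.gcd (Int.gcd x y) z = 1 ∧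
    0 < p ∧ 0 < q ∧ 0 < r ∧ (1 : ℚ) / p + 1 / q + 1 / r < 1 ∧ a * x ^ p + b * y ^ q = c * z ^ r

/-- Factor out the `l`-part. -/
lemma split (l : ℕ) (hl : l.Prime) (a : ℤ) (ha : a ≠ 0) :
    ∃ a' : ℤ, a = (l : ℤ) ^ padicValInt l a * a' ∧ ¬ (l : ℤ) ∣ a' := by
  have := Fact.mk hl
  obtain ⟨a', h⟩ := (padicValInt_dvd_iff (p := l) (padicValInt l a) a).mpr (Or.inr le_rfl)
  refine ⟨a', h, ?_⟩
  rintro ⟨k, hk⟩
  have h2 : (l : ℤ) ^ (padicValInt l a + 1) ∣ a := ⟨k, by rw [pow_succ, mul_assoc, ← hk, ← h]⟩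
  rcases (padicValInt_dvd_iff (p := l) _ a).mp h2 with h3 | h3
  · exact ha h3
  · omega

/-- If `a = ℓ a'`, `b = ℓ² b'` with `ℓ` prime to `a'`, `b'` and `c`, then a primitive solution has
`r = 2`. -/
lemma key (l : ℤ) (hl : Prime l) (a' b' c x y z : ℤ) (ha : ¬ l ∣ a') (hb : ¬ l ∣ b')
    (hc : ¬ l ∣ c) (p q r : ℕ) (hp : 2 ≤ p) (hr : 2 ≤ r)
    (h : l * a' * x ^ p + l ^ 2 * b' * y ^ q = c * z ^ r)
    (hg : ¬ (l ∣ x ∧ l ∣ y ∧ l ∣ z)) : r = 2 := by
  have hz : l ∣ z := by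
    have h1 : l ∣ c * z ^ r := by
      rw [← h]
      exact ⟨a' * x ^ p + l * b' * y ^ q, by ring⟩
    exact hl.dvd_of_dvd_pow ((hl.dvd_or_dvd h1).resolve_left hc)
  have hz2 : l ^ 2 ∣ z ^ r := (pow_dvd_pow l hr).trans (pow_dvd_pow_of_dvd hz r)
  have hx : l ∣ x := by
    have h1 : l ^ 2 ∣ l * a' * x ^ p := by
      have h2 : l * a' * x ^ p = c * z ^ r - l ^ 2 * (b' * y ^ q) := by rw [← h]; ring
      rw [h2]
      exact dvd_sub (hz2.mul_left c) ⟨_, rfl⟩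
    obtain ⟨k, hk⟩ := h1
    have h3 : a' * x ^ p = l * k := by
      have : l * (a' * x ^ p) = l * (l * k) := by rw [← mul_assoc, hk]; ring
      exact mul_left_cancel₀ hl.ne_zero this
    have h4 : l ∣ a' * x ^ p := ⟨k, h3⟩
    exact hl.dvd_of_dvd_pow ((hl.dvd_or_dvd h4).resolve_left ha)
  have hy : ¬ l ∣ y := fun hy => hg ⟨hx, hy, hz⟩
  by_contra hr2
  have hr3 : 3 ≤ r := by omega
  have hz3 : l ^ 3 ∣ z ^ r := (pow_dvd_pow l hr3).trans (pow_dvd_pow_of_dvd hz r)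
  have hx2 : l ^ 2 ∣ x ^ p := (pow_dvd_pow l hp).trans (pow_dvd_pow_of_dvd hx p)
  obtain ⟨m, hm⟩ := hx2
  obtain ⟨n, hn⟩ := hz3
  have h5 : l ^ 2 * (b' * y ^ q) = l ^ 2 * (l * (c * n - a' * m)) := by
    have : l ^ 2 * (b' * y ^ q) = c * z ^ r - l * a' * x ^ p := by rw [← h]; ring
    rw [this, hm, hn]; ring
  have h6 : b' * y ^ q = l * (c * n - a' * m) :=
    mul_left_cancel₀ (pow_ne_zero 2 hl.ne_zero) h5
  have h7 : l ∣ b' * y ^ q := ⟨_, h6⟩
  exact hy (hl.dvd_of_dvd_pow ((hl.dvd_or_dvd h7).resolve_left hb))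

/-- The exponent of a low coefficient is `2`. -/
lemma low_exp (l : ℕ) (hl : l.Prime) (a b c : ℤ) (ha : a ≠ 0) (hb : b ≠ 0) (hc : c ≠ 0)
    (hlow : Low l c a b) (x y z : ℤ) (p q r : ℕ) (hp : 2 ≤ p) (hq : 2 ≤ q) (hr : 2 ≤ r)
    (h : a * x ^ p + b * y ^ q = c * z ^ r)
    (hg : ¬ ((l : ℤ) ∣ x ∧ (l : ℤ) ∣ y ∧ (l : ℤ) ∣ z)) : r = 2 := by
  have hpl : Prime (l : ℤ) := Nat.prime_iff_prime_int.mp hl
  obtain ⟨a', ha', ha2⟩ := split l hl a ha
  obtain ⟨b', hb', hb2⟩ := split l hl b hb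
  obtain ⟨c', hc', hc2⟩ := split l hl c hc
  have hl0 : (l : ℤ) ^ padicValInt l c ≠ 0 := pow_ne_zero _ hpl.ne_zero
  rcases hlow with ⟨h1, h2⟩ | ⟨h1, h2⟩
  · rw [h1] at ha'
    rw [h2] at hb'
    refine key l hpl a' b' c' x y z ha2 hb2 hc2 p q r hp hr ?_ hg
    apply mul_left_cancel₀ hl0
    calc (l : ℤ) ^ padicValInt l c * (l * a' * x ^ p + l ^ 2 * b' * y ^ q)
        = ((l : ℤ) ^ (padicValInt l c + 1) * a') * x ^ p
          + ((l : ℤ) ^ (padicValInt l c + 2) * b') * y ^ q := by ring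
      _ = c * z ^ r := by rw [← ha', ← hb', h]
      _ = ((l : ℤ) ^ padicValInt l c * c') * z ^ r := by rw [← hc']
      _ = _ := by ring
  · rw [h1] at ha'
    rw [h2] at hb'
    refine key l hpl b' a' c' y x z hb2 ha2 hc2 q p r hq hr ?_ (fun h => hg ⟨h.2.1, h.1, h.2.2⟩)
    apply mul_left_cancel₀ hl0
    calc (l : ℤ) ^ padicValInt l c * (l * b' * y ^ q + l ^ 2 * a' * x ^ p)
        = ((l : ℤ) ^ (padicValInt l c + 2) * a') * x ^ p
          + ((l : ℤ) ^ (padicValInt l c + 1) * b') * y ^ q := by ring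
      _ = c * z ^ r := by rw [← ha', ← hb', h]
      _ = ((l : ℤ) ^ padicValInt l c * c') * z ^ r := by rw [← hc']
      _ = _ := by ring

lemma padicValInt_neg' (l : ℕ) (a : ℤ) : padicValInt l (-a) = padicValInt l a := by
  simp [padicValInt]

lemma exps (p q r : ℕ) (hp : 0 < p) (hq : 0 < q) (hr : 0 < r)
    (hh : (1 : ℚ) / p + 1 / q + 1 / r < 1) : 2 ≤ p ∧ 2 ≤ q ∧ 2 ≤ r := by
  have inv1 : ∀ n : ℕ, 0 < n → n < 2 → (1 : ℚ) / n = 1 := by
    intro n h1 h2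
    have : n = 1 := by omega
    simp [this]
  have pos : ∀ n : ℕ, 0 < n → (0 : ℚ) < 1 / n := by
    intro n hn
    positivity
  refine ⟨?_, ?_, ?_⟩
  · by_contra h
    have := inv1 p hp (by omega)
    linarith [pos q hq, pos r hr]
  · by_contra h
    have := inv1 q hq (by omega)
    linarith [pos p hp, pos r hr]
  · by_contra h
    have := inv1 r hr (by omega)
    linarith [pos p hp, pos q hq]

lemma two_two (p : ℕ) (hp : 0 < p) (hh : (1 : ℚ) / p + 1 / 2 + 1 / 2 < 1) : False := by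
  have : (0 : ℚ) < 1 / p := by positivity
  linarith

lemma prim (l : ℕ) (hl : l.Prime) (x y z : ℤ) (hg : Int.gcd (Int.gcd x y) z = 1) :
    ¬ ((l : ℤ) ∣ x ∧ (l : ℤ) ∣ y ∧ (l : ℤ) ∣ z) := by
  rintro ⟨h1, h2, h3⟩
  have h4 : (l : ℤ) ∣ ((Int.gcd (Int.gcd x y) z : ℕ) : ℤ) :=
    Int.dvd_coe_gcd (Int.dvd_coe_gcd h1 h2) h3
  rw [hg] at h4
  exact (Nat.prime_iff_prime_int.mp hl).not_isUnit (isUnit_of_dvd_one (by simpa using h4))

/-- Low `c` and low `b`. -/
lemma case_cb (a b c : ℤ) (ha : a ≠ 0) (hb : b ≠ 0) (hc : c ≠ 0) (l l' : ℕ) (hl : l.Prime)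
    (hl' : l'.Prime) (h1 : Low l c a b) (h2 : Low l' b a c) : NoSolution a b c := by
  rintro ⟨x, y, z, p, q, r, hx, hy, hz, hg, hp, hq, hr, hh, heq⟩
  obtain ⟨hp2, hq2, hr2⟩ := exps p q r hp hq hr hh
  have hr' := low_exp l hl a b c ha hb hc h1 x y z p q r hp2 hq2 hr2 heq (prim l hl x y z hg)
  have hq' := low_exp l' hl' (-a) c b (neg_ne_zero.mpr ha) hc hb
    (by unfold Low; rw [padicValInt_neg']; exact h2) x z y p r q hp2 hr2 hq2
    (by linear_combination -heq)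
    (fun h => prim l' hl' x y z hg ⟨h.1, h.2.2, h.2.1⟩)
  subst hr'
  subst hq'
  exact two_two p hp (by exact_mod_cast hh)

lemma low_symm (l : ℕ) (u s t : ℤ) (h : Low l u s t) : Low l u t s := by
  rcases h with ⟨h1, h2⟩ | ⟨h1, h2⟩
  · exact Or.inr ⟨h2, h1⟩
  · exact Or.inl ⟨h2, h1⟩

lemma case_ca (a b c : ℤ) (ha : a ≠ 0) (hb : b ≠ 0) (hc : c ≠ 0) (l l' : ℕ) (hl : l.Prime)
    (hl' : l'.Prime) (h1 : Low l c a b) (h2 : Low l' a b c) : NoSolution a b c := by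
  rintro ⟨x, y, z, p, q, r, hx, hy, hz, hg, hp, hq, hr, hh, heq⟩
  refine case_cb b a c hb ha hc l l' hl hl' (low_symm _ _ _ _ h1) h2
    ⟨y, x, z, q, p, r, hy, hx, hz, ?_, hq, hp, hr, by linarith, by linarith⟩
  rw [Int.gcd_comm y x]
  exact hg

lemma case_ab (a b c : ℤ) (ha : a ≠ 0) (hb : b ≠ 0) (hc : c ≠ 0) (l l' : ℕ) (hl : l.Prime)
    (hl' : l'.Prime) (h1 : Low l a b c) (h2 : Low l' b a c) : NoSolution a b c := by
  rintro ⟨x, y, z, p, q, r, hx, hy, hz, hg, hp, hq, hr, hh, heq⟩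
  obtain ⟨hp2, hq2, hr2⟩ := exps p q r hp hq hr hh
  have hq' := low_exp l' hl' (-a) c b (neg_ne_zero.mpr ha) hc hb
    (by unfold Low; rw [padicValInt_neg']; exact h2) x z y p r q hp2 hr2 hq2
    (by linear_combination -heq)
    (fun h => prim l' hl' x y z hg ⟨h.1, h.2.2, h.2.1⟩)
  have hp' := low_exp l hl (-b) c a (neg_ne_zero.mpr hb) hc ha
    (by unfold Low; rw [padicValInt_neg']; exact h1) y z x q r p hq2 hr2 hp2
    (by linear_combination -heq)
    (fun h => prim l hl x y z hg ⟨h.2.2, h.1, h.2.1⟩)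
  subst hp'
  subst hq'
  have : (0 : ℚ) < 1 / r := by positivity
  norm_num at hh
  have h3 : (0 : ℚ) < (r : ℚ)⁻¹ := by positivity
  linarith

/-- The triples `(6u, 4v, 9w)` with `u, v, w` prime to `6`. -/
lemma family (u v w : ℕ) (hu : Nat.Coprime u 6) (hv : Nat.Coprime v 6) (hw : Nat.Coprime w 6) :
    NoSolution ((6 * u : ℕ) : ℤ) ((4 * v : ℕ) : ℤ) ((9 * w : ℕ) : ℤ) := by
  have c2 : ∀ t : ℕ, Nat.Coprime t 6 → ¬ 2 ∣ t ∧ ¬ 3 ∣ t := by
    intro t ht
    constructor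
    · intro h
      have : 2 ∣ Nat.gcd t 6 := Nat.dvd_gcd h (by norm_num)
      rw [ht] at this
      omega
    · intro h
      have : 3 ∣ Nat.gcd t 6 := Nat.dvd_gcd h (by norm_num)
      rw [ht] at this
      omega
  have ne0 : ∀ t : ℕ, Nat.Coprime t 6 → t ≠ 0 := by
    rintro t ht rfl
    exact (c2 0 ht).1 (dvd_zero _)
  have : Fact (Nat.Prime 2) := ⟨Nat.prime_two⟩
  have : Fact (Nat.Prime 3) := ⟨Nat.prime_three⟩
  have v2 : ∀ t : ℕ, Nat.Coprime t 6 → padicValNat 2 t = 0 := fun t ht =>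
    padicValNat.eq_zero_of_not_dvd (c2 t ht).1
  have v3 : ∀ t : ℕ, Nat.Coprime t 6 → padicValNat 3 t = 0 := fun t ht =>
    padicValNat.eq_zero_of_not_dvd (c2 t ht).2
  have e26 : padicValNat 2 6 = 1 := by
    rw [show (6 : ℕ) = 2 * 3 by norm_num, padicValNat.mul (by norm_num) (by norm_num)]
    simp [padicValNat.eq_zero_of_not_dvd (show ¬ 2 ∣ 3 by norm_num)]
  have e36 : padicValNat 3 6 = 1 := by
    rw [show (6 : ℕ) = 2 * 3 by norm_num, padicValNat.mul (by norm_num) (by norm_num)]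
    simp [padicValNat.eq_zero_of_not_dvd (show ¬ 3 ∣ 2 by norm_num)]
  have e24 : padicValNat 2 4 = 2 := by
    rw [show (4 : ℕ) = 2 ^ 2 by norm_num, padicValNat.prime_pow]
  have e34 : padicValNat 3 4 = 0 := padicValNat.eq_zero_of_not_dvd (by norm_num)
  have e29 : padicValNat 2 9 = 0 := padicValNat.eq_zero_of_not_dvd (by norm_num)
  have e39 : padicValNat 3 9 = 2 := by
    rw [show (9 : ℕ) = 3 ^ 2 by norm_num, padicValNat.prime_pow]
  refine case_cb _ _ _ ?_ ?_ ?_ 2 3 Nat.prime_two Nat.prime_three ?_ ?_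
  · exact_mod_cast mul_ne_zero (by norm_num) (ne0 u hu)
  · exact_mod_cast mul_ne_zero (by norm_num) (ne0 v hv)
  · exact_mod_cast mul_ne_zero (by norm_num) (ne0 w hw)
  · left
    simp only [padicValInt.of_nat]
    rw [padicValNat.mul (by norm_num) (ne0 u hu), padicValNat.mul (by norm_num) (ne0 v hv),
      padicValNat.mul (by norm_num) (ne0 w hw), v2 u hu, v2 v hv, v2 w hw, e26, e24, e29]
    exact ⟨rfl, rfl⟩
  · left
    simp only [padicValInt.of_nat]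
    rw [padicValNat.mul (by norm_num) (ne0 u hu), padicValNat.mul (by norm_num) (ne0 v hv),
      padicValNat.mul (by norm_num) (ne0 w hw), v3 u hu, v3 v hv, v3 w hw, e36, e34, e39]
    exact ⟨rfl, rfl⟩

/-- The `i`-th natural number prime to `6`. -/
def cp (i : ℕ) : ℕ := 3 * i + 1 + i % 2

lemma cp_coprime (i : ℕ) : Nat.Coprime (cp i) 6 := by
  have h2 : ¬ 2 ∣ cp i := by unfold cp; omega
  have h3 : ¬ 3 ∣ cp i := by unfold cp; omega
  rw [show (6 : ℕ) = 2 * 3 by norm_num]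
  exact Nat.Coprime.mul_right (Nat.Coprime.symm ((Nat.Prime.coprime_iff_not_dvd Nat.prime_two).mpr h2))
    (Nat.Coprime.symm ((Nat.Prime.coprime_iff_not_dvd Nat.prime_three).mpr h3))

lemma cp_inj {i j : ℕ} (h : cp i = cp j) : i = j := by
  unfold cp at h
  omega

/-- (i) The coefficient triple `(6, 4, 9)`; (ii) a positive proportion of all triples; (iii) every
triple with two low coefficients. -/
theorem result :
    NoSolution 6 4 9 ∧
    (∀ N : ℕ, 1728 * N ^ 3 ≤ {t : ℤ × ℤ × ℤ | t.1 ∈ Set.Icc (1 : ℤ) (216 * N) ∧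
      t.2.1 ∈ Set.Icc (1 : ℤ) (216 * N) ∧ t.2.2 ∈ Set.Icc (1 : ℤ) (216 * N) ∧
      NoSolution t.1 t.2.1 t.2.2}.ncard) ∧
    (∀ a b c : ℤ, a ≠ 0 → b ≠ 0 → c ≠ 0 → ∀ l l' : ℕ, l.Prime → l'.Prime →
      ((Low l c a b ∧ Low l' b a c) ∨ (Low l c a b ∧ Low l' a b c) ∨
        (Low l a b c ∧ Low l' b a c)) → NoSolution a b c) := by
  refine ⟨?_, ?_, ?_⟩
  rotate_left 2
  · intro a b c ha hb hc l l' hl hl' h
    rcases h with ⟨h1, h2⟩ | ⟨h1, h2⟩ | ⟨h1, h2⟩
    · exact case_cb a b c ha hb hc l l' hl hl' h1 h2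
    · exact case_ca a b c ha hb hc l l' hl hl' h1 h2
    · exact case_ab a b c ha hb hc l l' hl hl' h1 h2
  · have h := family 1 1 1 (by norm_num) (by norm_num) (by norm_num)
    simpa using h
  · intro N
    set f : ℕ × ℕ × ℕ → ℤ × ℤ × ℤ := fun t =>
      (((6 * cp t.1 : ℕ) : ℤ), ((4 * cp t.2.1 : ℕ) : ℤ), ((9 * cp t.2.2 : ℕ) : ℤ)) with hf
    set D : Finset (ℕ × ℕ × ℕ) :=
      Finset.range (12 * N) ×ˢ Finset.range (18 * N) ×ˢ Finset.range (8 * N) with hD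
    have hcard : D.card = 1728 * N ^ 3 := by
      rw [hD, Finset.card_product, Finset.card_product, Finset.card_range, Finset.card_range,
        Finset.card_range]
      ring
    have hinj : Function.Injective f := by
      rintro ⟨i, j, k⟩ ⟨i', j', k'⟩ h
      simp only [hf, Prod.mk.injEq] at h
      obtain ⟨h1, h2, h3⟩ := h
      have e1 : i = i' := cp_inj (by exact_mod_cast (by omega : cp i = cp i'))
      have e2 : j = j' := cp_inj (by exact_mod_cast (by omega : cp j = cp j'))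
      have e3 : k = k' := cp_inj (by exact_mod_cast (by omega : cp k = cp k'))
      rw [e1, e2, e3]
    rw [← hcard, ← Finset.card_image_of_injective D hinj, ← Set.ncard_coe_finset]
    apply Set.ncard_le_ncard
    · intro t ht
      rw [Finset.mem_coe, Finset.mem_image] at ht
      obtain ⟨⟨i, j, k⟩, hs, rfl⟩ := ht
      rw [hD, Finset.mem_product, Finset.mem_product, Finset.mem_range, Finset.mem_range,
        Finset.mem_range] at hs
      obtain ⟨h1, h2, h3⟩ := hs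
      simp only at h1 h2 h3
      refine ⟨⟨?_, ?_⟩, ⟨?_, ?_⟩, ⟨?_, ?_⟩, family _ _ _ (cp_coprime i) (cp_coprime j) (cp_coprime k)⟩
      all_goals simp only [hf, cp]; omega
    · refine Set.Finite.subset ((Set.finite_Icc (1 : ℤ) (216 * N)).prod
        ((Set.finite_Icc (1 : ℤ) (216 * N)).prod (Set.finite_Icc (1 : ℤ) (216 * N)))) ?_
      rintro ⟨t1, t2, t3⟩ ⟨h1, h2, h3, -⟩
      exact ⟨h1, h2, h3⟩

end Pool.Agent.Results.MP_be1fae_nt.FixedCoefficients
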