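import Pool.Agent.Hhelper83.EvenCase
import Pool.Agent.Hhelper83.NonResidue

/-!
For every finite set `S` of primes and every `n ≥ 2`, a positive proportion of primes `ℓ` admits no
`S`-solution whose first two terms are `ℓ`-th powers, with `n ∣ r`, `ℓ ∤ z` and `c` divisible by a
prime `s ∤ n` with `gcd (n, s-1) > 1`.
-/

namespace Pool.Agent.Results.MP_be1fae_nt.PowerResidueClass

open Pool.Agent.Hhelper83.Terjanian Pool.Agent.Hhelper83.SSol Pool.Agent.Hhelper83.NonResidue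

/-- Let `S` be a finite set of primes and `n ≥ 2`.  There is a residue class `ρ mod M`, coprime to
`M`, such that for every prime `ℓ ≡ ρ (mod M)` exceeding all elements of `S` and every `S`-solution
`(a,b,c,x,y,z,p,q,r)` with `a x^p = u^ℓ`, `b y^q = v^ℓ`, `n ∣ r` and `ℓ ∤ z`, the coefficient `c` is
not divisible by any prime `s` with `s ∤ n` and `gcd (n, s-1) ≠ 1`. -/
theorem result (S : Finset ℕ) (hS : ∀ s ∈ S, s.Prime) (n : ℕ) (hn : 2 ≤ n) :
    ∃ M ρ : ℕ, 0 < M ∧ Nat.Coprime ρ M ∧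
      ∀ l : ℕ, l.Prime → l ≡ ρ [MOD M] → (∀ s ∈ S, s < l) →
      ∀ (a b c x y z : ℤ) (p q r : ℕ), IsSSolution S a b c x y z p q r →
      ∀ u v : ℤ, a * x ^ p = u ^ l → b * y ^ q = v ^ l → n ∣ r → ¬ (l : ℤ) ∣ z →
      ∀ s : ℕ, s.Prime → ¬ s ∣ n → Nat.gcd n (s - 1) ≠ 1 → ¬ (s : ℤ) ∣ c := by
  classical
  set T : Finset ℕ := S.filter (fun s => ¬ s ∣ n ∧ Nat.gcd n (s - 1) ≠ 1) with hT
  have hn0 : n ≠ 0 := by omega
  obtain ⟨ρ, h1, h2, h3⟩ := exists_class n hn0 T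
    (fun s hs => hS s (Finset.mem_filter.mp hs).1)
    (fun s hs => (Finset.mem_filter.mp hs).2.1)
    (fun s hs => (Finset.mem_filter.mp hs).2.2)
  refine ⟨2 * (n * ∏ s ∈ T, s), ?_⟩
  -- adjust to be odd
  have hTpos : 0 < n * ∏ s ∈ T, s := by
    apply Nat.mul_pos (by omega)
    apply Finset.prod_pos
    intro s hs
    exact (hS s (Finset.mem_filter.mp hs).1).pos
  obtain ⟨ρ', hρ1, hρ2⟩ : ∃ ρ' : ℕ, ρ' ≡ ρ [MOD n * ∏ s ∈ T, s] ∧
      Nat.Coprime ρ' (2 * (n * ∏ s ∈ T, s)) := by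
    rcases Nat.even_or_odd ρ with he | ho
    · refine ⟨ρ + n * ∏ s ∈ T, s, by simp [Nat.ModEq], ?_⟩
      have hodd : Odd (n * ∏ s ∈ T, s) := by
        rw [← Nat.not_even_iff_odd]
        intro he2
        have : 2 ∣ Nat.gcd ρ (n * ∏ s ∈ T, s) := Nat.dvd_gcd he.two_dvd he2.two_dvd
        rw [h1] at this
        omega
      apply Nat.Coprime.mul_right
      · rw [Nat.coprime_two_right]
        exact he.add_odd hodd
      · simpa using h1
    · exact ⟨ρ, rfl, Nat.Coprime.mul_right (Nat.coprime_two_right.mpr ho) h1⟩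
  refine ⟨ρ', by omega, hρ2, ?_⟩
  intro l hl hlρ hSl a b c x y z p q r h u v hu hv hnr hz s hs hsn hsg hsc
  have hl2 : l ≠ 2 := by
    rintro rfl
    have hodd : Odd ρ' := Nat.coprime_two_right.mp (Nat.Coprime.coprime_mul_right_right hρ2)
    have : (2 : ℕ) ≡ ρ' [MOD 2] := hlρ.of_mul_right _
    unfold Nat.ModEq at this
    rw [Nat.odd_iff] at hodd
    omega
  have hlρ' : l ≡ ρ [MOD n * ∏ s ∈ T, s] := (hlρ.of_mul_left 2).trans hρ1
  have hnl : n ∣ l - 1 := by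
    have h4 : l ≡ 1 [MOD n] := (hlρ'.of_mul_right _).trans h2
    exact (Nat.modEq_iff_dvd' hl.one_lt.le).mp h4.symm
  obtain ⟨k, hk⟩ := hnr
  have heq : u ^ l + v ^ l = c * (z ^ k) ^ n := by
    rw [← hu, ← hv, h.eq, hk, ← pow_mul, mul_comm k n]
  have hlp : Prime (l : ℤ) := Nat.prime_iff_prime_int.mp hl
  have hcop : IsCoprime u v := h.isCoprime hl.ne_zero hl.ne_zero hu hv
  obtain ⟨hne, hcd, t, ht⟩ := core hcop hl hl2 (by
    intro s hs hd
    have hsS := h.unit_c hs hd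
    have hsl := hSl s hsS
    have h2s := hs.two_le
    constructor
    · intro h0
      have := (Nat.modEq_zero_iff_dvd).mp h0
      exact absurd (Nat.le_of_dvd (by omega) this) (by omega)
    · intro h1
      have := (Nat.modEq_iff_dvd' (by omega : 1 ≤ s)).mp h1.symm
      exact absurd (Nat.le_of_dvd (by omega) this) (by omega))
    (fun hd => hz (hlp.dvd_of_dvd_pow hd)) h.c_ne (pow_ne_zero _ h.z_ne) heq
  obtain ⟨e, he⟩ := residue hcop hnl hs (hsc.trans hcd) ht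
  have hsT : s ∈ T := Finset.mem_filter.mpr ⟨h.unit_c hs hsc, hsn, hsg⟩
  apply h3 s hsT e
  rw [he]
  have : l ≡ ρ [MOD s] := hlρ'.of_dvd ((Finset.dvd_prod_of_mem _ hsT).mul_left n)
  exact (ZMod.natCast_eq_natCast_iff _ _ _).mpr this

end Pool.Agent.Results.MP_be1fae_nt.PowerResidueClass
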