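import Pool.Agent.Hhelper83.SecondCase

/-!
`S`-solutions of `a x^p + b y^q = c z^r` with `p, q` even, `a = α^2`, `b = -β^2` and third term
an odd perfect `ℓ`-th power.
-/

namespace Pool.Agent.Results.MP_be1fae_nt.SignatureFourTwoOdd

open Pool.Agent.Hhelper83.Terjanian Pool.Agent.Hhelper83.SSol

/-- the key step: `u^l + v^l = 2 α t^2` implies `l ∣ t ↔ α t^2` even, and if `α t^2` is odd then
`l` is a square modulo every prime dividing `α`. -/
theorem key {S : Finset ℕ} {l : ℕ} (hl : l.Prime) (hl5 : 5 ≤ l)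
    (hS : ∀ s ∈ S, ¬ s ≡ 0 [MOD l] ∧ ¬ s ≡ 1 [MOD l]) {u v α t : ℤ} (hcop : IsCoprime u v)
    (hu0 : u ≠ 0) (hv0 : v ≠ 0)
    (hα0 : α ≠ 0) (ht0 : t ≠ 0) (hα : ∀ s : ℕ, s.Prime → (s : ℤ) ∣ α → s ∈ S)
    (heq : u ^ l + v ^ l = 2 * (α * t ^ 2)) :
    ((l : ℤ) ∣ t ↔ Even (α * t ^ 2)) ∧
    (¬ Even (α * t ^ 2) → ∀ s : ℕ, s.Prime → (s : ℤ) ∣ α → IsSquare (l : ZMod s)) := by
  have heq' : u ^ l + v ^ l = (2 * α) * t ^ 2 := by rw [heq]; ring
  have hcS : ∀ s : ℕ, s.Prime → (s : ℤ) ∣ 2 * α → ¬ s ≡ 0 [MOD l] ∧ ¬ s ≡ 1 [MOD l] := by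
    intro s hs hd
    have hsp : Prime (s : ℤ) := Nat.prime_iff_prime_int.mp hs
    rcases hsp.dvd_or_dvd hd with h | h
    · have h2 : s ∣ 2 := by exact_mod_cast h
      have h2' : s = 2 := (Nat.prime_dvd_prime_iff_eq hs Nat.prime_two).mp h2
      subst h2'
      constructor
      · intro h0
        have := (Nat.modEq_zero_iff_dvd).mp h0
        exact absurd (Nat.le_of_dvd (by norm_num) this) (by omega)
      · intro h1
        have := (Nat.modEq_iff_dvd' (by norm_num : 1 ≤ 2)).mp h1.symm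
        exact absurd (Nat.le_of_dvd (by norm_num) this) (by omega)
    · exact hS s (hα s hs h)
  have hc0 : 2 * α ≠ 0 := mul_ne_zero two_ne_zero hα0
  obtain ⟨h1, -⟩ := dichotomy hcop hl hl5 hcS hc0 ht0 hu0 hv0 heq'
  have h2 : (4 : ℤ) ∣ 2 * α * t ^ 2 ↔ Even (α * t ^ 2) := by
    rw [even_iff_two_dvd]
    have : 2 * α * t ^ 2 = 2 * (α * t ^ 2) := by ring
    rw [this, show (4 : ℤ) = 2 * 2 by norm_num]
    exact mul_dvd_mul_iff_left two_ne_zero
  rw [h2] at h1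
  refine ⟨h1, ?_⟩
  intro hodd s hs hsα
  have hlt : ¬ (l : ℤ) ∣ t := fun hd => hodd (h1.mp hd)
  have hl2 : l ≠ 2 := by omega
  obtain ⟨-, hcd, g, hg⟩ := core hcop hl hl2 hcS hlt hc0 ht0 heq'
  have hnl : 2 ∣ l - 1 := by
    have := hl.odd_of_ne_two hl2
    rw [Nat.odd_iff] at this
    omega
  obtain ⟨e, he⟩ := residue hcop hnl hs ((hsα.mul_left 2).trans hcd) hg
  exact ⟨e, by rw [← he, sq]⟩

/-- Let `S` be a finite set of primes and `ℓ ≥ 5` a prime such that no element of `S` is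
`0` or `1` modulo `ℓ` (for instance any prime `ℓ ≥ 5` with `ℓ > max S`).  Let
`(a,b,c,x,y,z,p,q,r)` be an `S`-solution of `a x^p + b y^q = c z^r` with `p, q` even, `a = α^2`,
`b = -β^2` and `c z^r = w^ℓ` odd.
If `4 ∣ p` then `ℓ ∣ x` exactly when `a x` is even, and when `a x` is odd `ℓ` is a square modulo
every prime dividing `a`.  The same holds for `q, y, b`.  In particular, if `4 ∣ p` and `4 ∣ q`,
exactly one of `x, y` is divisible by `ℓ`. -/
theorem result (S : Finset ℕ) (l : ℕ) (hl : l.Prime) (hl5 : 5 ≤ l)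
    (hS : ∀ s ∈ S, ¬ s ≡ 0 [MOD l] ∧ ¬ s ≡ 1 [MOD l])
    (a b c x y z : ℤ) (p q r : ℕ) (h : IsSSolution S a b c x y z p q r)
    (hp : 2 ∣ p) (hq : 2 ∣ q) (α β w : ℤ) (ha : a = α ^ 2) (hb : b = - β ^ 2)
    (hw : c * z ^ r = w ^ l) (hodd : Odd w) :
    (4 ∣ p → ((l : ℤ) ∣ x ↔ Even (a * x)) ∧
      (Odd (a * x) → ∀ s : ℕ, s.Prime → (s : ℤ) ∣ a → IsSquare (l : ZMod s))) ∧
    (4 ∣ q → ((l : ℤ) ∣ y ↔ Even (b * y)) ∧
      (Odd (b * y) → ∀ s : ℕ, s.Prime → (s : ℤ) ∣ b → IsSquare (l : ZMod s))) ∧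
    (Even (a * x) ↔ ¬ Even (b * y)) := by
  have hl2 : l ≠ 2 := by omega
  have hlo : Odd l := hl.odd_of_ne_two hl2
  obtain ⟨m, hm⟩ := hp
  obtain ⟨n, hn⟩ := hq
  have hm0 : m ≠ 0 := by
    rintro rfl; have := h.pos_p; omega
  have hn0 : n ≠ 0 := by
    rintro rfl; have := h.pos_q; omega
  set X : ℤ := α * x ^ m with hX
  set Y : ℤ := β * y ^ n with hY
  have hα0 : α ≠ 0 := by
    rintro rfl; exact h.a_ne (by rw [ha]; norm_num)
  have hβ0 : β ≠ 0 := by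
    rintro rfl; exact h.b_ne (by rw [hb]; norm_num)
  have hαS : ∀ s : ℕ, s.Prime → (s : ℤ) ∣ α → s ∈ S := by
    intro s hs hd
    exact h.unit_a hs (by rw [ha]; exact dvd_pow hd two_ne_zero)
  have hβS : ∀ s : ℕ, s.Prime → (s : ℤ) ∣ β → s ∈ S := by
    intro s hs hd
    exact h.unit_b hs (by rw [hb]; exact (dvd_pow hd two_ne_zero).neg_right)
  have hX2 : a * x ^ p = X ^ 2 := by rw [ha, hm, hX]; ring
  have hY2 : b * y ^ q = - Y ^ 2 := by rw [hb, hn, hY]; ring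
  have hmain : (X + Y) * (X - Y) = w ^ l := by
    rw [← hw, ← h.eq, hX2, hY2]; ring
  have hXY : IsCoprime X Y := by
    apply isCoprime_of_forall_prime
    intro s hs h1 h2
    refine h.not_dvd hs ?_ ?_
    · rw [hX2]; exact dvd_pow h1 two_ne_zero
    · rw [hY2]; exact (dvd_pow h2 two_ne_zero).neg_right
  have hwl : Odd (w ^ l) := hodd.pow
  have hcop : IsCoprime (X + Y) (X - Y) := by
    apply isCoprime_of_forall_prime
    intro s hs h1 h2
    have hsp : Prime (s : ℤ) := Nat.prime_iff_prime_int.mp hs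
    have h3 : (s : ℤ) ∣ 2 * X := by
      have := dvd_add h1 h2
      have e : X + Y + (X - Y) = 2 * X := by ring
      rwa [e] at this
    have h4 : (s : ℤ) ∣ 2 * Y := by
      have := dvd_sub h1 h2
      have e : X + Y - (X - Y) = 2 * Y := by ring
      rwa [e] at this
    have hs2 : ¬ (s : ℤ) ∣ 2 := by
      intro h5
      have h6 : s ∣ 2 := by exact_mod_cast h5
      have h2' : s = 2 := (Nat.prime_dvd_prime_iff_eq hs Nat.prime_two).mp h6
      subst h2'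
      have : (2 : ℤ) ∣ w ^ l := by
        rw [← hmain]; exact (by exact_mod_cast h1 : (2 : ℤ) ∣ X + Y).mul_right _
      rw [← even_iff_two_dvd] at this
      exact (Int.not_even_iff_odd.mpr hwl) this
    exact hsp.not_isUnit (hXY.isUnit_of_dvd' ((hsp.dvd_or_dvd h3).resolve_left hs2)
      ((hsp.dvd_or_dvd h4).resolve_left hs2))
  obtain ⟨⟨u, hu⟩, ⟨v, hv⟩⟩ := Int.eq_pow_of_mul_eq_pow_odd hcop hlo hmain
  have huv : IsCoprime u v := by
    rw [hu, hv] at hcop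
    exact (IsCoprime.pow_iff hl.pos hl.pos).mp hcop
  have hw0 : w ^ l ≠ 0 := by
    rw [← hw]; exact mul_ne_zero h.c_ne (pow_ne_zero _ h.z_ne)
  have hu0 : u ≠ 0 := by
    rintro rfl
    rw [hu, zero_pow hl.ne_zero, zero_mul] at hmain
    exact hw0 hmain.symm
  have hv0 : v ≠ 0 := by
    rintro rfl
    rw [hv, zero_pow hl.ne_zero, mul_zero] at hmain
    exact hw0 hmain.symm
  have hsum : u ^ l + v ^ l = 2 * X := by rw [← hu, ← hv]; ring
  have hdif : u ^ l + (-v) ^ l = 2 * Y := by rw [hlo.neg_pow, ← hu, ← hv]; ring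
  have hlp : Prime (l : ℤ) := Nat.prime_iff_prime_int.mp hl
  -- parity translations
  have hXax : Even X ↔ Even (a * x) := by
    rw [hX, ha, Int.even_mul, Int.even_mul, Int.even_pow, Int.even_pow]
    constructor
    · rintro (h1 | ⟨h1, -⟩)
      · exact Or.inl ⟨h1, two_ne_zero⟩
      · exact Or.inr h1
    · rintro (⟨h1, -⟩ | h1)
      · exact Or.inl h1
      · exact Or.inr ⟨h1, hm0⟩
  have hYby : Even Y ↔ Even (b * y) := by
    rw [hY, hb, Int.even_mul, Int.even_mul, even_neg, Int.even_pow, Int.even_pow]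
    constructor
    · rintro (h1 | ⟨h1, -⟩)
      · exact Or.inl ⟨h1, two_ne_zero⟩
      · exact Or.inr h1
    · rintro (⟨h1, -⟩ | h1)
      · exact Or.inl h1
      · exact Or.inr ⟨h1, hn0⟩
  have hodd2 : Odd (X + Y) := by
    rw [← Int.not_even_iff_odd]
    intro hev
    exact (Int.not_even_iff_odd.mpr hwl) (by rw [← hmain]; exact hev.mul_right _)
  refine ⟨?_, ?_, ?_⟩
  · rintro ⟨k, hk⟩
    have hmk : m = 2 * k := by omega
    have hk0 : k ≠ 0 := by rintro rfl; omega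
    have hXe : X = α * (x ^ k) ^ 2 := by rw [hX, hmk, ← pow_mul, mul_comm k 2]
    obtain ⟨k1, k2⟩ := key hl hl5 hS huv hu0 hv0 hα0 (pow_ne_zero k h.x_ne) hαS
      (by rw [hsum, hXe])
    rw [← hXe, hXax] at k1 k2
    have h3 : (l : ℤ) ∣ x ^ k ↔ (l : ℤ) ∣ x :=
      ⟨fun hd => hlp.dvd_of_dvd_pow hd, fun hd => dvd_pow hd hk0⟩
    rw [h3] at k1
    refine ⟨k1, ?_⟩
    intro ho s hs hsa
    rw [ha] at hsa
    exact k2 (Int.not_even_iff_odd.mpr ho) s hs
      ((Nat.prime_iff_prime_int.mp hs).dvd_of_dvd_pow hsa)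
  · rintro ⟨k, hk⟩
    have hmk : n = 2 * k := by omega
    have hk0 : k ≠ 0 := by rintro rfl; omega
    have hYe : Y = β * (y ^ k) ^ 2 := by rw [hY, hmk, ← pow_mul, mul_comm k 2]
    obtain ⟨k1, k2⟩ := key hl hl5 hS huv.neg_right hu0 (neg_ne_zero.mpr hv0) hβ0
      (pow_ne_zero k h.y_ne) hβS (by rw [hdif, hYe])
    rw [← hYe, hYby] at k1 k2
    have h3 : (l : ℤ) ∣ y ^ k ↔ (l : ℤ) ∣ y :=
      ⟨fun hd => hlp.dvd_of_dvd_pow hd, fun hd => dvd_pow hd hk0⟩
    rw [h3] at k1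
    refine ⟨k1, ?_⟩
    intro ho s hs hsb
    rw [hb, dvd_neg] at hsb
    exact k2 (Int.not_even_iff_odd.mpr ho) s hs
      ((Nat.prime_iff_prime_int.mp hs).dvd_of_dvd_pow hsb)
  · rw [← hXax, ← hYby]
    constructor
    · intro h1 h2
      exact (Int.not_even_iff_odd.mpr hodd2) (h1.add h2)
    · intro h1
      by_contra h2
      rw [Int.not_even_iff_odd] at h1 h2
      exact (Int.not_even_iff_odd.mpr hodd2) (h2.add_odd h1)

end Pool.Agent.Results.MP_be1fae_nt.SignatureFourTwoOdd
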