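import Pool.Agent.Hhelper83.SecondCase

/-!
`S`-solutions of `a x^p + b y^q = c z^r` whose first two terms are perfect `ℓ`-th powers and
whose exponent `r` is even.
-/

namespace Pool.Agent.Results.MP_be1fae_nt.SignaturePPEven

open Pool.Agent.Hhelper83.Terjanian Pool.Agent.Hhelper83.SSol

/-- Let `S` be a finite set of primes and `ℓ ≥ 5` a prime such that no element of `S` is
`0` or `1` modulo `ℓ` (for instance any prime `ℓ ≥ 5` with `ℓ > max S`).  Let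
`(a,b,c,x,y,z,p,q,r)` be an `S`-solution whose first two terms `a x^p = u^ℓ`, `b y^q = v^ℓ` are
perfect `ℓ`-th powers, with `r` even.  Then `ℓ ∣ z` if and only if `4 ∣ c z^r`; moreover
`u v ≢ 2 (mod 4)`, and if `4 ∤ c z^r` then `ℓ` is a square modulo every prime dividing `c`. -/
theorem result (S : Finset ℕ) (l : ℕ) (hl : l.Prime) (hl5 : 5 ≤ l)
    (hS : ∀ s ∈ S, ¬ s ≡ 0 [MOD l] ∧ ¬ s ≡ 1 [MOD l])
    (a b c x y z : ℤ) (p q r : ℕ) (h : IsSSolution S a b c x y z p q r)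
    (u v : ℤ) (hu : a * x ^ p = u ^ l) (hv : b * y ^ q = v ^ l) (hr : Even r) :
    ((l : ℤ) ∣ z ↔ (4 : ℤ) ∣ c * z ^ r) ∧ ¬ u * v ≡ 2 [ZMOD 4] ∧
    (¬ (4 : ℤ) ∣ c * z ^ r → ∀ s : ℕ, s.Prime → (s : ℤ) ∣ c → IsSquare (l : ZMod s)) := by
  obtain ⟨k, hk⟩ := hr
  have hk0 : k ≠ 0 := by
    rintro rfl; have := h.pos_r; omega
  have hzr : (z ^ k) ^ 2 = z ^ r := by rw [hk, ← pow_mul]; ring_nf
  have heq : u ^ l + v ^ l = c * (z ^ k) ^ 2 := by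
    rw [← hu, ← hv, h.eq, hzr]
  have hlp : Prime (l : ℤ) := Nat.prime_iff_prime_int.mp hl
  have hcop : IsCoprime u v := h.isCoprime hl.ne_zero hl.ne_zero hu hv
  have hu0 : u ≠ 0 := by
    rintro rfl
    rw [zero_pow hl.ne_zero] at hu
    exact (mul_ne_zero h.a_ne (pow_ne_zero _ h.x_ne)) hu
  have hv0 : v ≠ 0 := by
    rintro rfl
    rw [zero_pow hl.ne_zero] at hv
    exact (mul_ne_zero h.b_ne (pow_ne_zero _ h.y_ne)) hv
  obtain ⟨h1, h2⟩ := dichotomy hcop hl hl5 (fun s hs hd => hS s (h.unit_c hs hd)) h.c_ne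
    (pow_ne_zero k h.z_ne) hu0 hv0 heq
  rw [hzr] at h1
  have h3 : (l : ℤ) ∣ z ^ k ↔ (l : ℤ) ∣ z :=
    ⟨fun hd => hlp.dvd_of_dvd_pow hd, fun hd => dvd_pow hd hk0⟩
  rw [h3] at h1
  refine ⟨h1, h2, ?_⟩
  intro h4 s hs hsc
  have hz : ¬ (l : ℤ) ∣ z := fun hd => h4 (h1.mp hd)
  have hl2 : l ≠ 2 := by omega
  obtain ⟨-, hcd, t, ht⟩ := core hcop hl hl2 (fun s hs hd => hS s (h.unit_c hs hd))
    (fun hd => hz (hlp.dvd_of_dvd_pow hd)) h.c_ne (pow_ne_zero k h.z_ne) heq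
  have hnl : 2 ∣ l - 1 := by
    have := hl.odd_of_ne_two hl2
    rw [Nat.odd_iff] at this
    omega
  obtain ⟨e, he⟩ := residue hcop hnl hs (hsc.trans hcd) ht
  exact ⟨e, by rw [← he, sq]⟩

end Pool.Agent.Results.MP_be1fae_nt.SignaturePPEven
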