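import Pool.Agent.FCat.CntE

/-!
Given the theorem of Darmon and Granville, there are at most `K N^ε` `S`-solutions of size at most
`N`, all exponents together.
-/

set_option autoImplicit false

namespace Pool.Agent.Results.MP_be1fae_nt.SubpolynomialCount

open Pool.Agent.FCat

/-- If the theorem of Darmon and Granville holds, then for every finite set `S` and every `ε > 0`
there is `K` such that for all `N ≥ 1` the triples of terms of size at most `N` of all `S`-solutions
number at most `K N^ε`. -/
theorem result (DG : DarmonGranville) (S : Finset ℕ) (ε : ℝ) (hε : 0 < ε) :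
    ∃ K : ℝ, ∀ N : ℕ, 1 ≤ N → ((TrAll S N).ncard : ℝ) ≤ K * (N : ℝ) ^ ε := by
  obtain ⟨K, -, h⟩ := trAll_card DG S ε hε
  exact ⟨K, h⟩

end Pool.Agent.Results.MP_be1fae_nt.SubpolynomialCount
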